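import Pool.Agent.U280.OL.Stm
import Pool.Agent.U450.OE.S

set_option autoImplicit false

/-! Project OL, package Q13: systems with a symmetry which fixes the last coordinates. -/

open MeasureTheory Set Filter Topology
open scoped ENNReal

namespace Pool.Agent.U208.OL

open Pool.Agent.U280.OD Pool.Agent.U280.OE Pool.Agent.U280.OL
open Pool.Agent.U450.OE (integral_eq_zero_of_symm)

theorem t_Q13 : Q13 := by
  intro k m N u hu g hg hfix ζ hζ hζ1 hs c B hB
  let S : Set (Fin (k + m) → ℝ) := {z | (fun j => z (Fin.natAdd k j)) ∈ B}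
  have hS : MeasurableSet S := by
    have hmeas : Measurable fun (z : Fin (k + m) → ℝ) (j : Fin m) => z (Fin.natAdd k j) :=
      measurable_pi_lambda _ fun j => measurable_pi_apply _
    exact hmeas hB
  have hmem : ∀ z, g z ∈ S ↔ z ∈ S := by
    intro z
    change (fun j => g z (Fin.natAdd k j)) ∈ B ↔ (fun j => z (Fin.natAdd k j)) ∈ B
    have : (fun j => g z (Fin.natAdd k j)) = fun j => z (Fin.natAdd k j) := by
      funext j
      exact hfix z j
    rw [this]
  change ∫ z in S, ((‖∑ n, c n * u n z‖ : ℝ) : ℂ) * ∑ n, c n * u n z = 0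
  rw [← integral_indicator hS]
  have hsum : MemLp (fun x => ∑ n, c n * u n x) 2 :=
    memLp_finset_sum _ fun n _ => (hu n).const_mul (c n)
  refine integral_eq_zero_of_symm hg (a := ζ) ?_ hζ1 ?_
  · exact ((Complex.continuous_ofReal.comp_aestronglyMeasurable
      hsum.aestronglyMeasurable.norm).mul hsum.aestronglyMeasurable).indicator hS
  · filter_upwards [ae_all_iff.2 hs] with x hx
    have h1 : ∑ n, c n * u n (g x) = ζ * ∑ n, c n * u n x := by
      rw [Finset.mul_sum]
      refine Finset.sum_congr rfl fun n _ => ?_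
      rw [hx n]; ring
    by_cases hxS : x ∈ S
    · rw [indicator_of_mem hxS, indicator_of_mem ((hmem x).2 hxS), h1, norm_mul, hζ, one_mul]
      ring
    · rw [indicator_of_notMem hxS, indicator_of_notMem fun h => hxS ((hmem x).1 h), mul_zero]

end Pool.Agent.U208.OL
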